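import Pool.Agent.H50.NC.Targets

/-!
# MP_816b90_co, part NC, row ABN: neighbours of a side of the first and of the second type
-/

set_option autoImplicit false

namespace Pool.Agent.H77.NCK

open Pool.Agent.H48.ER Pool.Agent.H50.NC

variable {V : Type} {G : SimpleGraph V} {a b : Fin 3 → V} {n : Fin 3 → ℕ} {P : Fin 3 → Set V}
  {i : Fin 3} {S : Set V} {w : V}

/-- a neighbour of a side is not on the other rungs -/
theorem nb_not_mem (h : Sd G a b n P i S) (hw : Nb G S w) : w ∉ Xr P i := by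
  intro hx
  obtain ⟨s, hs, ha⟩ := hw.2
  exact (h.ne s hs w hx).2 ha.symm

theorem pf_ABN : T_ABN := by
  intro V G a b n P i S w w' hN hS hw hw' hA hB hadj
  obtain ⟨j, hj⟩ : ∃ j : Fin 3, j ≠ i := exists_ne i
  have hP := hS.pr.1
  have hjX : ∀ v ∈ P j, v ∈ Xr P i := fun v hv => ⟨j, hj, hv⟩
  have hwX := nb_not_mem hS hw
  have hwX' := nb_not_mem hS hw'
  have hne := G.ne_of_adj hadj
  have hd : Disjoint {w, w'} (P j) := by
    rw [Set.disjoint_left]
    rintro v (rfl | rfl) hv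
    · exact hwX (hjX _ hv)
    · exact hwX' (hjX _ hv)
  have h1 : ∀ u ∈ ({w, w'} : Set V), ∀ v ∈ P j,
      G.Adj u v ↔ (u = w ∧ v = a j) ∨ (u = w' ∧ v = b j) := by
    rintro u (rfl | rfl) v hv
    · rw [hA v (hjX v hv)]
      constructor
      · rintro ⟨k, hk, rfl⟩
        have hkj : k = j := hP.rung (hP.a_mem k) hv
        subst hkj
        exact Or.inl ⟨rfl, rfl⟩
      · rintro (⟨_, h⟩ | ⟨h, _⟩)
        · exact ⟨j, hj, h⟩
        · exact absurd h hne
    · rw [hB v (hjX v hv)]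
      constructor
      · rintro ⟨k, hk, rfl⟩
        have hkj : k = j := hP.rung (hP.b_mem k) hv
        subst hkj
        exact Or.inr ⟨rfl, rfl⟩
      · rintro (⟨h, _⟩ | ⟨_, h⟩)
        · exact absurd h.symm hne
        · exact ⟨j, hj, h⟩
  have hpos := hP.pos j
  have key := c_HOL V G 1 (n j) w w' (a j) (b j) {w, w'} (P j) hN (IP.edge hadj) (hP.ip j) hd h1
    (by omega)
  rcases hS.pr.2 j with ⟨c, hc⟩
  rcases key with ⟨d, hd⟩
  omega

end Pool.Agent.H77.NCK
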