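import Pool.Agent.H50.NC.Targets

/-!
# MP_816b90_co, part NC, row DA: two rungs in `S` up to the last vertex
-/

set_option autoImplicit false

namespace Pool.Agent.H77.NCK

open Pool.Agent.H48.ER Pool.Agent.H50.NC

variable {V : Type} {G : SimpleGraph V} {a b : Fin 3 → V} {n : Fin 3 → ℕ} {P : Fin 3 → Set V}
  {S T : Set V}

/-- the last vertex of a path of positive length has a neighbour on the path -/
theorem ip_pred {k : ℕ} {x y : V} {R : Set V} (h : IP G k x y R) (hk : 1 ≤ k) :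
    ∃ v ∈ R, v ≠ y ∧ G.Adj y v := by
  obtain ⟨g, h0, h1, hinj, hadj, rfl⟩ := h
  refine ⟨g (k - 1), ⟨k - 1, by omega, rfl⟩, ?_, ?_⟩
  · intro he
    rw [← h1] at he
    have := hinj (k - 1) k (by omega) le_rfl he
    omega
  · rw [← h1]
    exact (hadj k (k - 1) le_rfl (by omega)).2 (Or.inr (by omega))

/-- the end outside of `S` of a path in `S` is a neighbour of `S` -/
theorem ip_nb {k : ℕ} {x y : V} {R : Set V} (h : IP G k x y R) (hk : 1 ≤ k) (hy : y ∉ S)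
    (hR : ∀ v ∈ R, v = y ∨ v ∈ S) : Nb G S y := by
  obtain ⟨v, hv, hvy, ha⟩ := ip_pred h hk
  exact ⟨hy, v, (hR v hv).resolve_left hvy, ha⟩

/-- a smaller side -/
theorem sm_of_sub {i j : Fin 3} (hij : i ≠ j) (hT : Sd G a b n P i T) (ha : a i ∈ S)
    (h : T ⊆ S) : Sm G S := by
  refine ⟨a, b, n, P, i, T, hT, h, ?_⟩
  rintro rfl
  exact (hT.ne (a i) ha (a j) ⟨j, hij.symm, hT.pr.1.a_mem j⟩).2 (hT.pr.1.a_adj hij)

theorem pf_DA (hSDX : T_SDX) (hTPA : T_TPA) (hSEP : T_SEP) (hPTA : T_PTA) : T_DA := by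
  intro V G a b n P S X hNOH hNOP hE hSX hB0 hB1 _
  obtain ⟨T0, hT0⟩ := hSDX V G a b n P 0 hE
  obtain ⟨T1, hT1⟩ := hSDX V G a b n P 1 hE
  have h01 : (0 : Fin 3) ≠ 1 := by decide
  have h02 : (0 : Fin 3) ≠ 2 := by decide
  have ha0 : a 0 ∈ S := (hB0.2 (a 0) (hE.1.a_mem 0)).resolve_left (hE.1.a_ne_b 0 0)
  have ha1 : a 1 ∈ S := (hB1.2 (a 1) (hE.1.a_mem 1)).resolve_left (hE.1.a_ne_b 1 1)
  by_cases hs0 : T0 ⊆ S
  · exact sm_of_sub h01 hT0 ha0 hs0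
  by_cases hs1 : T1 ⊆ S
  · exact sm_of_sub h01.symm hT1 ha1 hs1
  exfalso
  obtain ⟨t0, p0, R0, ht0, ht0S, hR0, hp0, hRS0, hRT0⟩ := hTPA V G a b n P 0 S T0 hT0 ha0 hs0
  obtain ⟨t1, p1, R1, ht1, ht1S, hR1, hp1, hRS1, hRT1⟩ := hTPA V G a b n P 1 S T1 hT1 ha1 hs1
  have hE0 : Ex G S (P 0) (a 0) (n 0) (b 0) := ⟨P 0, hE.1.ip 0, subset_rfl, hB0.1, hB0.2⟩
  have hE1 : Ex G S (P 1) (a 1) (n 1) (b 1) := ⟨P 1, hE.1.ip 1, subset_rfl, hB1.1, hB1.2⟩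
  have k0 := hPTA V G a b n P 0 1 S X T0 R0 p0 (n 1) t0 (b 1) hSX hT0 h01 ha0 ht0 ht0S hR0 hp0
    hRS0 hRT0 hE1
  have k1 := hPTA V G a b n P 1 0 S X T1 R1 p1 (n 0) t1 (b 0) hSX hT1 h01.symm ha1 ht1 ht1S hR1 hp1
    hRS1 hRT1 hE0
  have hsep := hSEP V G a b n P 0 1 T0 T1 hNOH hNOP h01 hT0 hT1
  have hne0 : ∀ s ∈ T0, s ≠ a 1 ∧ ¬ G.Adj s (a 1) := fun s hs =>
    hT0.ne s hs (a 1) ⟨1, h01.symm, hE.1.a_mem 1⟩
  have hne1 : ∀ s ∈ T1, s ≠ a 0 ∧ ¬ G.Adj s (a 0) := fun s hs =>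
    hT1.ne s hs (a 0) ⟨0, h01, hE.1.a_mem 0⟩
  have haa : a 0 ≠ a 1 := G.ne_of_adj (hE.1.a_adj h01)
  have hdis : Disjoint R0 R1 := by
    rw [Set.disjoint_left]
    intro v hv hv'
    rcases hRT0 v hv with rfl | h
    · rcases hRT1 _ hv' with h' | h'
      · exact haa h'
      · exact (hne1 _ h').1 rfl
    · rcases hRT1 v hv' with rfl | h'
      · exact (hne0 _ h).1 rfl
      · exact (hsep v h v h').1 rfl
  have hXE : XE G R0 R1 (a 0) (a 1) := by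
    intro u hu v hv
    constructor
    · intro hadj
      rcases hRT0 u hu with rfl | h
      · rcases hRT1 v hv with rfl | h'
        · exact ⟨rfl, rfl⟩
        · exact absurd hadj.symm (hne1 v h').2
      · rcases hRT1 v hv with rfl | h'
        · exact absurd hadj (hne0 u h).2
        · exact absurd hadj (hsep u h v h').2
    · rintro ⟨rfl, rfl⟩
      exact hE.1.a_adj h01
  have hpath := IP.append hR0.rev hR1 hdis hXE
  have key := hSX.ev _ t0 t1 _ (ip_nb hR0 hp0 ht0S hRS0) (ip_nb hR1 hp1 ht1S hRS1)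
    (hsep t0 ht0 t1 ht1).2 hpath (by
      rintro v (hv | hv)
      · rcases hRS0 v hv with h | h
        · exact Or.inl h
        · exact Or.inr (Or.inr h)
      · rcases hRS1 v hv with h | h
        · exact Or.inr (Or.inl h)
        · exact Or.inr (Or.inr h))
  rcases hE.2 0 with ⟨c0, hc0⟩
  rcases hE.2 1 with ⟨c1, hc1⟩
  rcases k0 with ⟨d0, hd0⟩
  rcases k1 with ⟨d1, hd1⟩
  rcases key with ⟨e, he⟩
  omega

end Pool.Agent.H77.NCK
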